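import Mathlib

/-!
# Shuffles and group-like series: polynomials in the coefficients are linear combinations of coefficients
-/

set_option autoImplicit false

namespace Pool.Agent.Q311.KZ

/-- the shuffles of two words, with multiplicities -/
def shuffles {A : Type} : List A → List A → List (List A)
  | [], v => [v]
  | u, [] => [u]
  | a :: u, b :: v => (shuffles u (b :: v)).map (a :: ·) ++ (shuffles (a :: u) v).map (b :: ·)
termination_by u v => u.length + v.length

/-- the series with the coefficients `Φ w` is group-like: the coefficient of the empty word is `1`, and the product of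
the coefficients of two words is the sum of the coefficients of their shuffles -/
def GroupLike {A R : Type} [CommRing R] (Φ : List A → R) : Prop :=
  Φ [] = 1 ∧ ∀ u v : List A, Φ u * Φ v = ((shuffles u v).map Φ).sum

/-- words of length at most `k` -/
abbrev Wd (A : Type) (k : ℕ) : Type := {w : List A // w.length ≤ k}

theorem red_list {A : Type} (l : List (List A)) : ∃ N : List (List A), ∀ (R : Type) [CommRing R] (Φ : List A → R),
    GroupLike Φ → (l.map Φ).prod = (N.map Φ).sum := by
  induction l with
  | nil => exact ⟨[[]], fun R _ Φ hΦ => by simp [hΦ.1]⟩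
  | cons u l ih =>
    obtain ⟨N, hN⟩ := ih
    refine ⟨N.flatMap (shuffles u), fun R _ Φ hΦ => ?_⟩
    rw [List.map_cons, List.prod_cons, hN R Φ hΦ]
    clear hN
    induction N with
    | nil => simp
    | cons v N ih2 =>
      rw [List.map_cons, List.sum_cons, mul_add, ih2, hΦ.2 u v, List.flatMap_cons, List.map_append,
        List.sum_append]

theorem red {A : Type} {k : ℕ} (m : Wd A k →₀ ℕ) : ∃ N : List (List A), ∀ (R : Type) [CommRing R] (Φ : List A → R),
    GroupLike Φ → (m.prod fun u n => Φ u.1 ^ n) = (N.map Φ).sum := by
  obtain ⟨N, hN⟩ := red_list (m.toMultiset.toList.map Subtype.val)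
  refine ⟨N, fun R _ Φ hΦ => ?_⟩
  rw [← hN R Φ hΦ, List.map_map]
  have h1 : (List.map (Φ ∘ Subtype.val) m.toMultiset.toList).prod = (m.toMultiset.map (Φ ∘ Subtype.val)).prod := by
    rw [← Multiset.prod_coe, ← Multiset.map_coe, Multiset.coe_toList]
  rw [h1]
  clear h1 hN
  induction m using Finsupp.induction_linear with
  | zero => simp
  | add f g hf hg =>
    rw [Finsupp.prod_add_index' (fun _ => pow_zero _) (fun _ _ _ => pow_add _ _ _), hf, hg, map_add,
      Multiset.map_add, Multiset.prod_add]
  | single a n =>
    rw [Finsupp.prod_single_index (h := fun (u : Wd A k) n => Φ u.1 ^ n) (pow_zero _), Finsupp.toMultiset_single,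
      Multiset.map_nsmul, Multiset.map_singleton, Multiset.prod_nsmul, Multiset.prod_singleton]
    rfl

/-- the words, with multiplicities, the sum of whose coefficients is the monomial `m` -/
noncomputable def N {A : Type} {k : ℕ} (m : Wd A k →₀ ℕ) : List (List A) := Classical.choose (red m)

theorem N_spec {A : Type} {k : ℕ} (m : Wd A k →₀ ℕ) (R : Type) [CommRing R] (Φ : List A → R) (hΦ : GroupLike Φ) :
    (m.prod fun u n => Φ u.1 ^ n) = ((N m).map Φ).sum := Classical.choose_spec (red m) R Φ hΦ

open Classical in
/-- the words which occur -/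
noncomputable def V {A : Type} {k : ℕ} (E : Finset (Wd A k →₀ ℕ)) : Finset (List A) :=
  E.biUnion fun m => (N m : Multiset (List A)).toFinset

open Classical in
/-- the coefficient of the word `v` in the linear form which belongs to the polynomial `P` -/
noncomputable def cf {A S : Type} [CommRing S] {k : ℕ} (P : MvPolynomial (Wd A k) S) (v : List A) : S :=
  ∑ m ∈ P.support, P.coeff m * (((N m : Multiset (List A)).count v : ℕ) : S)

open Classical in
theorem list_sum {A R : Type} [CommRing R] (l : List (List A)) (Φ : List A → R) (W : Finset (List A))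
    (h : (l : Multiset (List A)).toFinset ⊆ W) :
    (l.map Φ).sum = ∑ v ∈ W, (((l : Multiset (List A)).count v : ℕ) : R) * Φ v := by
  have h0 : (l.map Φ).sum = ((l : Multiset (List A)).map Φ).sum := by
    rw [Multiset.map_coe, Multiset.sum_coe]
  rw [h0, Finset.sum_multiset_map_count, ← Finset.sum_subset h]
  · refine Finset.sum_congr rfl fun v _ => ?_
    rw [nsmul_eq_mul]
  · intro v _ hv
    rw [Multiset.mem_toFinset] at hv
    rw [Multiset.count_eq_zero_of_notMem hv]
    simp

open Classical in
/-- **Linearisation.** -/
theorem lin {A S R : Type} [CommRing S] [CommRing R] (f : S →+* R) {k : ℕ} (P : MvPolynomial (Wd A k) S)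
    (Φ : List A → R) (hΦ : GroupLike Φ) (W : Finset (List A)) (hW : V P.support ⊆ W) :
    MvPolynomial.eval₂ f (fun w : Wd A k => Φ w.1) P = ∑ v ∈ W, f (cf P v) * Φ v := by
  rw [MvPolynomial.eval₂_eq]
  have h1 : ∀ m ∈ P.support, f (P.coeff m) * ∏ i ∈ m.support, Φ i.1 ^ m i =
      ∑ v ∈ W, f (P.coeff m * (((N m : Multiset (List A)).count v : ℕ) : S)) * Φ v := by
    intro m hm
    have h2 := N_spec m R Φ hΦ
    rw [Finsupp.prod] at h2
    rw [h2, list_sum (N m) Φ W ((Finset.subset_biUnion_of_mem
      (fun m => (N m : Multiset (List A)).toFinset) hm).trans hW), Finset.mul_sum]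
    refine Finset.sum_congr rfl fun v _ => ?_
    rw [map_mul, map_natCast]
    ring
  rw [Finset.sum_congr rfl h1, Finset.sum_comm]
  refine Finset.sum_congr rfl fun v _ => ?_
  rw [cf, map_sum, Finset.sum_mul]

end Pool.Agent.Q311.KZ
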