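import Mathlib

/-!
# Iterated primitives of elements which are independent modulo derivatives are linearly independent
-/

set_option autoImplicit false

open Finset

namespace Pool.Agent.Q311.KZ

variable {A : Type} [Fintype A] [DecidableEq A]

/-- the words of length `n` -/
def wd (A : Type) [Fintype A] [DecidableEq A] : ℕ → Finset (List A)
  | 0 => {[]}
  | n + 1 => (univ ×ˢ wd A n).image (fun p => p.1 :: p.2)

theorem mem_wd (n : ℕ) (w : List A) : w ∈ wd A n ↔ w.length = n := by
  induction n generalizing w with
  | zero => simp [wd, List.length_eq_zero_iff]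
  | succ n ih =>
    rw [wd, mem_image]
    constructor
    · rintro ⟨⟨a, v⟩, h, rfl⟩
      rw [mem_product, ih] at h
      simp [h.2]
    · intro h
      cases w with
      | nil => simp at h
      | cons a v =>
        refine ⟨(a, v), ?_, rfl⟩
        rw [mem_product, ih]
        exact ⟨mem_univ _, by simpa using h⟩

theorem sum_wd_succ {M : Type} [AddCommMonoid M] (n : ℕ) (f : List A → M) :
    ∑ w ∈ wd A (n + 1), f w = ∑ w ∈ wd A n, ∑ a, f (a :: w) := by
  rw [wd, sum_image, sum_product, sum_comm]
  rintro ⟨a, v⟩ _ ⟨b, w⟩ _ h
  simp only [List.cons.injEq] at h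
  exact Prod.ext h.1 h.2

variable {M : Type} [Field M] [Algebra ℂ M] (D : Derivation ℂ M M) (k : IntermediateField ℂ M)

theorem indep_words (hk : ∀ a ∈ k, D a ∈ k) (hconst : ∀ m : M, D m = 0 → ∃ c : ℂ, algebraMap ℂ M c = m)
    (L : List A → M) (u : A → M) (hu : ∀ a, u a ∈ k) (hL0 : L [] = 1) (hL : ∀ a w, D (L (a :: w)) = u a * L w)
    (hind : ∀ c : A → ℂ, (∃ y ∈ k, ∑ a, algebraMap ℂ M (c a) * u a = D y) → c = 0) (n : ℕ) :
    ∀ c : List A → M, (∀ w, c w ∈ k) → ∑ i ∈ range (n + 1), ∑ w ∈ wd A i, c w * L w = 0 →
      ∀ i ≤ n, ∀ w ∈ wd A i, c w = 0 := by
  classical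
  induction n with
  | zero =>
    intro c _ h i hi w hw
    simp only [zero_add, range_one, sum_singleton, wd, hL0, mul_one] at h
    rw [Nat.le_zero.1 hi, wd, mem_singleton] at hw
    rw [hw]
    exact h
  | succ n ih =>
    have main : ∀ (r : ℕ) (c : List A → M), (∀ w, c w ∈ k) →
        ((wd A (n + 1)).filter (fun w => c w ≠ 0)).card ≤ r →
        ∑ i ∈ range (n + 1 + 1), ∑ w ∈ wd A i, c w * L w = 0 →
        ∀ i ≤ n + 1, ∀ w ∈ wd A i, c w = 0 := by
      intro r
      induction r with
      | zero =>
        intro c hc hr h i hi w hw
        have h0 : ∀ w ∈ wd A (n + 1), c w = 0 := by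
          intro w hw
          by_contra hne
          have : w ∈ (wd A (n + 1)).filter (fun w => c w ≠ 0) := mem_filter.2 ⟨hw, hne⟩
          rw [card_eq_zero.1 (Nat.le_zero.1 hr)] at this
          exact absurd this (notMem_empty _)
        rw [sum_range_succ, sum_eq_zero (s := wd A (n + 1)) (fun w hw => by rw [h0 w hw, zero_mul]), add_zero] at h
        rcases Nat.lt_or_ge i (n + 1) with hi' | hi'
        · exact ih c hc h i (by omega) w hw
        · have : i = n + 1 := le_antisymm hi hi'
          subst this
          exact h0 w hw
      | succ r ihr =>
        intro c hc hr h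
        by_cases hex : ∃ w₀ ∈ wd A (n + 1), c w₀ ≠ 0
        swap
        · push Not at hex
          refine ihr c hc ?_ h
          rw [filter_eq_empty_iff.2 (fun w hw => not_not.2 (hex w hw))]
          simp
        exfalso
        obtain ⟨w₀, hw₀, hne⟩ := hex
        set e : List A → M := fun w => (c w₀)⁻¹ * c w with he
        have hek : ∀ w, e w ∈ k := fun w => mul_mem (inv_mem (hc w₀)) (hc w)
        have he0 : e w₀ = 1 := inv_mul_cancel₀ hne
        have hsum : ∑ i ∈ range (n + 1 + 1), ∑ w ∈ wd A i, e w * L w = 0 := by
          have : ∑ i ∈ range (n + 1 + 1), ∑ w ∈ wd A i, e w * L w =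
              (c w₀)⁻¹ * ∑ i ∈ range (n + 1 + 1), ∑ w ∈ wd A i, c w * L w := by
            rw [mul_sum]
            refine sum_congr rfl fun i _ => ?_
            rw [mul_sum]
            refine sum_congr rfl fun w _ => ?_
            rw [he]
            ring
          rw [this, h, mul_zero]
        -- the derivative
        set d : List A → M := fun w => D (e w) + if w.length < n + 1 then ∑ a, e (a :: w) * u a else 0 with hd
        have hdk : ∀ w, d w ∈ k := by
          intro w
          rw [hd]
          refine add_mem (hk _ (hek w)) ?_
          split_ifs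
          · exact sum_mem fun a _ => mul_mem (hek _) (hu a)
          · exact zero_mem _
        have hdtop : ∀ w ∈ wd A (n + 1), d w = D (e w) := by
          intro w hw
          rw [hd]
          simp only [(mem_wd _ _).1 hw, lt_irrefl, if_false, add_zero]
        have hdsum : ∑ i ∈ range (n + 1 + 1), ∑ w ∈ wd A i, d w * L w = 0 := by
          have h1 := congrArg D hsum
          rw [map_zero, map_sum] at h1
          have h2 : ∀ i, D (∑ w ∈ wd A i, e w * L w) =
              ∑ w ∈ wd A i, D (e w) * L w + ∑ w ∈ wd A i, e w * D (L w) := by
            intro i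
            rw [map_sum, ← sum_add_distrib]
            refine sum_congr rfl fun w _ => ?_
            rw [Derivation.leibniz, smul_eq_mul, smul_eq_mul]
            ring
          rw [sum_congr rfl fun i _ => h2 i, sum_add_distrib] at h1
          have h3 : ∑ i ∈ range (n + 1 + 1), ∑ w ∈ wd A i, e w * D (L w) =
              ∑ i ∈ range (n + 1), ∑ w ∈ wd A i, (∑ a, e (a :: w) * u a) * L w := by
            rw [sum_range_succ']
            have h4 : ∑ w ∈ wd A 0, e w * D (L w) = 0 := by
              rw [wd, sum_singleton, hL0, Derivation.map_one_eq_zero, mul_zero]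
            rw [h4, add_zero]
            refine sum_congr rfl fun i _ => ?_
            rw [sum_wd_succ]
            refine sum_congr rfl fun w _ => ?_
            rw [sum_mul]
            refine sum_congr rfl fun a _ => ?_
            rw [hL]
            ring
          rw [h3] at h1
          rw [← h1]
          have h5 : ∀ i, ∑ w ∈ wd A i, d w * L w = ∑ w ∈ wd A i, D (e w) * L w +
              if i < n + 1 then ∑ w ∈ wd A i, (∑ a, e (a :: w) * u a) * L w else 0 := by
            intro i
            split_ifs with hi
            · rw [← sum_add_distrib]
              refine sum_congr rfl fun w hw => ?_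
              rw [hd]
              simp only [(mem_wd _ _).1 hw, hi, if_true]
              ring
            · rw [add_zero]
              refine sum_congr rfl fun w hw => ?_
              rw [hd]
              simp only [(mem_wd _ _).1 hw, hi, if_false, add_zero]
          rw [sum_congr rfl fun i _ => h5 i, sum_add_distrib]
          congr 1
          rw [sum_range_succ, if_neg (lt_irrefl _), add_zero]
          exact sum_congr rfl fun i hi => if_pos (mem_range.1 hi)
        have hcard : ((wd A (n + 1)).filter (fun w => d w ≠ 0)).card ≤ r := by
          have hsub : (wd A (n + 1)).filter (fun w => d w ≠ 0) ⊆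
              ((wd A (n + 1)).filter (fun w => c w ≠ 0)).erase w₀ := by
            intro w hw
            rw [mem_filter] at hw
            rw [mem_erase, mem_filter]
            refine ⟨?_, hw.1, ?_⟩
            · rintro rfl
              apply hw.2
              rw [hdtop _ hw.1, he0, Derivation.map_one_eq_zero]
            · intro h0
              apply hw.2
              rw [hdtop _ hw.1, he]
              simp only [h0, mul_zero, map_zero]
          have h1 := card_le_card hsub
          rw [card_erase_of_mem (mem_filter.2 ⟨hw₀, hne⟩)] at h1
          omega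
        have hd0 := ihr d hdk hcard hdsum
        -- the coefficients of the longest words are constants
        have hcst : ∀ w ∈ wd A (n + 1), ∃ z : ℂ, algebraMap ℂ M z = e w := by
          intro w hw
          refine hconst _ ?_
          rw [← hdtop w hw]
          exact hd0 _ le_rfl w hw
        cases hw0' : w₀ with
        | nil =>
          rw [mem_wd, hw0'] at hw₀
          simp at hw₀
        | cons a₀ w' =>
          have hlen : w'.length = n := by
            rw [mem_wd, hw0'] at hw₀
            simpa using hw₀
          have hc' : ∀ a, ∃ z : ℂ, algebraMap ℂ M z = e (a :: w') := by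
            intro a
            refine hcst _ ?_
            rw [mem_wd]
            simp [hlen]
          choose κ hκ using hc'
          have h1 := hd0 n (by omega) w' ((mem_wd _ _).2 hlen)
          rw [hd] at h1
          simp only [hlen, Nat.lt_succ_self, if_true] at h1
          have h2 : κ = 0 := by
            refine hind κ ⟨-e w', neg_mem (hek w'), ?_⟩
            rw [map_neg]
            have h3 : ∑ a, algebraMap ℂ M (κ a) * u a = ∑ a, e (a :: w') * u a :=
              sum_congr rfl fun a _ => by rw [hκ]
            rw [h3]
            linear_combination h1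
          have h3 : e w₀ = 0 := by
            rw [hw0', ← hκ a₀, h2]
            simp
          rw [he0] at h3
          exact one_ne_zero h3
    intro c hc h
    exact main _ c hc le_rfl h

end Pool.Agent.Q311.KZ
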