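import Pool.Agent.Q311.KZ.A
import Pool.Agent.Q311.KZ.B
import Pool.Agent.Q311.KO.Gel
import Pool.Agent.Q311.KO.Iter

/-!
# The coefficients of a group-like solution are linearly independent over the polynomials
-/

set_option autoImplicit false
set_option linter.unusedSectionVars false

open Filter Topology Pool.Agent.Q311.KO MvPolynomial
open Pool.Agent.Y890.MV (InnerM RegularM evM)

namespace Pool.Agent.Q311.KZ

variable {A : Type}

/-- `G(z) = ∑ L_w(z) w` is an analytic group-like solution on `U` of `G'(z) = (∑_a a / (z - σ_a)) G(z)` -/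
structure Transport (σ : A → ℂ) (U : Set ℂ) (L : List A → ℂ → ℂ) : Prop where
  analytic : ∀ w, DifferentiableOn ℂ (L w) U
  equation : ∀ a w, ∀ z ∈ U, (z - σ a) * deriv (L (a :: w)) z = L w z
  groupLike : ∀ z ∈ U, GroupLike (fun w => L w z)

/-- the set in the space of functions on a point -/
def up (U : Set ℂ) : Set (Unit → ℂ) := {x | x () ∈ U}

/-- the function on the space of functions on a point -/
def lft (f : ℂ → ℂ) : (Unit → ℂ) → ℂ := fun x => f (x ())

theorem up_open {U : Set ℂ} (hU : IsOpen U) : IsOpen (up U) := hU.preimage (continuous_apply ())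

theorem up_ne {U : Set ℂ} (hU : U.Nonempty) : (up U).Nonempty := ⟨fun _ => hU.some, hU.some_mem⟩

theorem up_conn {U : Set ℂ} (hU : IsPreconnected U) : IsPreconnected (up U) := by
  have h : up U = (fun z : ℂ => (fun _ : Unit => z)) '' U := by
    ext x
    constructor
    · intro hx
      exact ⟨x (), hx, funext fun _ => rfl⟩
    · rintro ⟨z, hz, rfl⟩
      exact hz
  rw [h]
  exact hU.image _ (continuous_pi fun _ => continuous_id).continuousOn

theorem lft_an {U : Set ℂ} (hU : IsOpen U) {f : ℂ → ℂ} (hf : DifferentiableOn ℂ f U) :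
    AnalyticOnNhd ℂ (lft f) (up U) := by
  intro x hx
  exact ((hf.analyticAt (hU.mem_nhds hx)).comp_of_eq
    ((ContinuousLinearMap.proj (R := ℂ) (φ := fun _ : Unit => ℂ) ()).analyticAt x) rfl)

theorem lft_deriv {U : Set ℂ} (hU : IsOpen U) {f : ℂ → ℂ} (hf : DifferentiableOn ℂ f U) {x : Unit → ℂ}
    (hx : x ∈ up U) : fderiv ℂ (lft f) x (Pi.single () 1) = deriv f (x ()) := by
  have h1 : HasFDerivAt (fun x : Unit → ℂ => x ())
      (ContinuousLinearMap.proj (R := ℂ) (φ := fun _ : Unit => ℂ) ()) x :=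
    (ContinuousLinearMap.proj (R := ℂ) (φ := fun _ : Unit => ℂ) ()).hasFDerivAt
  have h2 : HasDerivAt f (deriv f (x ())) (x ()) :=
    ((hf _ hx).differentiableAt (hU.mem_nhds hx)).hasDerivAt
  have h3 := h2.hasFDerivAt.comp x h1
  have h4 : HasFDerivAt (lft f) _ x := h3
  rw [h4.fderiv]
  simp

variable [Fintype A] [DecidableEq A]

open Classical in
theorem lin_indep {σ : A → ℂ} (hσ : Function.Injective σ) {U : Set ℂ} (hU : IsPreconnected U) (hUo : IsOpen U)
    (hne : U.Nonempty) {L : List A → ℂ → ℂ} (hL : Transport σ U L)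
    (W : Finset (List A)) (p : List A → MvPolynomial Unit ℂ)
    (h : ∀ x ∈ up U, ∑ v ∈ W, eval x (p v) * L v (x ()) = 0) : ∀ v ∈ W, p v = 0 := by
  obtain ⟨M, iF, iA, D, T, hM⟩ := exists_mer (up_conn hU) (up_open hUo) (up_ne hne)
  set φ : A → MvPolynomial Unit ℂ := fun a => X () - C (σ a) with hφ
  have hφ0 : ∀ a, φ a ≠ 0 := by
    intro a h0
    have h1 := congrArg (eval (fun _ : Unit => σ a + 1)) h0
    simp [hφ] at h1
  have hφM : ∀ a, aeval (xc T) (φ a) ≠ 0 := fun a h0 =>
    hφ0 a (aeval_xc_inj hM.inj (up_open hUo) (up_ne hne) h0)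
  have han : ∀ w, AnalyticOnNhd ℂ (lft (L w)) (up U) := fun w => lft_an hUo (hL.analytic w)
  set LM : List A → M := fun w => T (mkA (lft (L w)) (han w)) with hLM
  have hL0 : LM [] = 1 := by
    have h1 : mkA (lft (L [])) (han []) = 1 := by
      refine Subtype.ext (funext fun x => ?_)
      exact (hL.groupLike _ x.2).1
    rw [hLM]
    simp only [h1, map_one]
  have hder0 : ∀ a w, aeval (xc T) (φ a) * D () (LM (a :: w)) = LM w := by
    intro a w
    rw [hLM]
    simp only
    rw [hM.der, aeval_xc, ← map_mul, mkA_mul]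
    congr 1
    refine mkA_eq.2 fun x hx => ?_
    change eval x (φ a) * fderiv ℂ (lft (L (a :: w))) x (Pi.single () 1) = L w (x ())
    rw [lft_deriv hUo (hL.analytic _) hx, hφ]
    simp only [map_sub, eval_X, eval_C]
    exact hL.equation a w _ hx
  set u : A → M := fun a => (aeval (xc T) (φ a))⁻¹ with hu
  have hder : ∀ a w, D () (LM (a :: w)) = u a * LM w := by
    intro a w
    rw [← hder0 a w, hu]
    simp only
    rw [← mul_assoc, inv_mul_cancel₀ (hφM a), one_mul]
  have huk : ∀ a, u a ∈ k0 T := fun a => inv_mem (aeval_mem_k0 _)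
  have hconst : ∀ m : M, D () m = 0 → ∃ c : ℂ, algebraMap ℂ M c = m :=
    fun m hm => hM.const m fun j => hm
  have hclosed := closed_k0 (hM := hM)
  have hirr : ∀ k, ∃ q, Irreducible q ∧ q ∣ φ k ∧ ∀ k', k' ≠ k → ¬ q ∣ φ k' := by
    intro k
    have hnu : ¬ IsUnit (φ k) := by
      intro hunit
      have h1 := hunit.map (eval (fun _ : Unit => σ k))
      rw [hφ] at h1
      simp at h1
    obtain ⟨q, hq, hqk⟩ := WfDvdMonoid.exists_irreducible_factor hnu (hφ0 k)
    refine ⟨q, hq, hqk, fun k' hk' hqk' => ?_⟩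
    have h1 : q ∣ C (σ k' - σ k) := by
      have h2 : (C (σ k' - σ k) : MvPolynomial Unit ℂ) = φ k - φ k' := by
        rw [hφ]
        simp only [map_sub]
        ring
      rw [h2]
      exact dvd_sub hqk hqk'
    have h3 : IsUnit (C (σ k' - σ k) : MvPolynomial Unit ℂ) :=
      (isUnit_iff_ne_zero.2 (sub_ne_zero.2 fun h => hk' (hσ h))).map C
    exact hq.not_isUnit (isUnit_of_dvd_unit h1 h3)
  have hind : ∀ c : A → ℂ, (∃ y ∈ k0 T, ∑ a, algebraMap ℂ M (c a) * u a = D () y) → c = 0 := by
    rintro c ⟨y, hy, hc⟩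
    refine log_zero hM (up_open hUo) (up_ne hne) φ hφ0 (fun a => LM [a]) ?_ hirr c ?_
    · rintro ⟨⟩ a
      rw [hder0, hL0, hφ]
      simp
    · have h1 : D () ((∑ a, algebraMap ℂ M (c a) * LM [a]) - y) = 0 := by
        rw [map_sub, ← hc, map_sum, sub_eq_zero]
        refine Finset.sum_congr rfl fun a _ => ?_
        rw [Derivation.leibniz, Derivation.map_algebraMap, smul_zero, add_zero, smul_eq_mul, hder, hL0, mul_one]
      obtain ⟨z, hz⟩ := hconst _ h1
      have h2 : (∑ a, algebraMap ℂ M (c a) * LM [a]) ∈ k0 T := by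
        have h3 : (∑ a, algebraMap ℂ M (c a) * LM [a]) = algebraMap ℂ M z + y := by
          rw [hz]
          ring
        rw [h3]
        exact add_mem (IntermediateField.algebraMap_mem _ _) hy
      exact isAlgebraic_algebraMap (⟨_, h2⟩ : k0 T)
  -- the relation
  set n := W.sup List.length with hn
  set c : List A → M := fun v => if v ∈ W then aeval (xc T) (p v) else 0 with hc
  have hck : ∀ v, c v ∈ k0 T := by
    intro v
    rw [hc]
    simp only
    split_ifs
    · exact aeval_mem_k0 _
    · exact zero_mem _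
  have hsum : ∑ i ∈ Finset.range (n + 1), ∑ w ∈ wd A i, c w * LM w = 0 := by
    have h1 : ∑ i ∈ Finset.range (n + 1), ∑ w ∈ wd A i, c w * LM w =
        ∑ w ∈ (Finset.range (n + 1)).biUnion (wd A), c w * LM w := by
      rw [Finset.sum_biUnion]
      intro i _ j _ hij
      rw [Function.onFun, Finset.disjoint_left]
      intro w hw hw'
      exact hij (((mem_wd _ _).1 hw).symm.trans ((mem_wd _ _).1 hw'))
    have h2 : W ⊆ (Finset.range (n + 1)).biUnion (wd A) := by
      intro v hv
      rw [Finset.mem_biUnion]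
      exact ⟨v.length, Finset.mem_range.2 (Nat.lt_succ_of_le (Finset.le_sup (f := List.length) hv)),
        (mem_wd _ _).2 rfl⟩
    rw [h1, ← Finset.sum_subset h2 (fun v _ hv => by rw [hc]; simp only [hv, if_false, zero_mul])]
    have h3 : ∑ v ∈ W, c v * LM v = T (∑ v ∈ W, mkA (fun x => eval x (p v) * lft (L v) x)
        (an_mul (poly_an (p v)) (han v))) := by
      rw [map_sum]
      refine Finset.sum_congr rfl fun v hv => ?_
      rw [hc]
      simp only [hv, if_true]
      rw [aeval_xc, hLM, ← map_mul, mkA_mul]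
    rw [h3]
    have h4 : ∑ v ∈ W, mkA (fun x => eval x (p v) * lft (L v) x) (an_mul (poly_an (p v)) (han v)) = 0 := by
      refine Subtype.ext (funext fun x => ?_)
      have h5 := h x.1 x.2
      rw [AddSubmonoidClass.coe_finsetSum, Finset.sum_apply]
      exact h5
    rw [h4, map_zero]
  have hall := indep_words (D ()) (k0 T) (fun a ha => hclosed () a ha) hconst LM u huk hL0 hder hind n c hck hsum
  intro v hv
  have h1 := hall v.length (Finset.le_sup (f := List.length) hv) v ((mem_wd _ _).2 rfl)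
  rw [hc] at h1
  simp only [hv, if_true] at h1
  exact aeval_xc_inj hM.inj (up_open hUo) (up_ne hne) h1

end Pool.Agent.Q311.KZ
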