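import Pool.Agent.Q311.KZ.C

/-!
# The field generated by the coefficients of a solution is regular over the rational functions
-/

set_option autoImplicit false
set_option linter.unusedSectionVars false

open Filter Topology Pool.Agent.Q311.KO MvPolynomial
open Pool.Agent.Y890.MV (InnerM RegularM evM)

namespace Pool.Agent.Q311.KZ

variable {A : Type}

instance [Finite A] (k : ℕ) : Finite (Wd A k) := List.finite_length_le A k

theorem evM_rename {X σ τ : Type} (e : σ → τ) (f : τ → (X → ℂ) → ℂ) (x : X → ℂ)
    (p : MvPolynomial σ (MvPolynomial X ℂ)) : evM f x (rename e p) = evM (fun i => f (e i)) x p := by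
  unfold evM
  rw [eval₂_rename]
  rfl

theorem reg_equiv {X σ τ : Type} [Fintype X] (e : τ ≃ σ) {U : Set (X → ℂ)} {f : σ → (X → ℂ) → ℂ}
    (h : RegularM U (fun i => f (e i))) : RegularM U f := by
  intro V g P Q R hVo hVne hVU hg hR hQ hPQ hRg
  have hh : ∀ (x : X → ℂ) (p : MvPolynomial σ (MvPolynomial X ℂ)),
      evM (fun i => f (e i)) x (rename e.symm p) = evM f x p := by
    intro x p
    rw [evM_rename]
    simp only [Equiv.apply_symm_apply]
  refine h V g (rename e.symm P) (rename e.symm Q) R hVo hVne hVU hg hR ?_ ?_ hRg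
  · intro x hx
    rw [hh]
    exact hQ x hx
  · intro x hx
    rw [hh, hh]
    exact hPQ x hx

variable [Fintype A] [DecidableEq A]

theorem regular {σ : A → ℂ} {U : Set ℂ} (hU : IsPreconnected U) (hUo : IsOpen U)
    (hne : U.Nonempty) {L : List A → ℂ → ℂ} (hL : Transport σ U L) (k : ℕ) :
    RegularM (up U) (fun w : Wd A k => lft (L w.1)) := by
  classical
  have hfin : Fintype (Wd A k) := Fintype.ofFinite _
  have han : ∀ w, AnalyticOnNhd ℂ (lft (L w)) (up U) := fun w => lft_an hUo (hL.analytic w)
  set e₀ : Fin (Fintype.card (Wd A k)) ≃ Wd A k := (Fintype.equivFin _).symm with he₀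
  set s := Tuple.sort (fun i => (e₀ i).1.length) with hs
  have hmono : Monotone ((fun i => (e₀ i).1.length) ∘ s) := Tuple.monotone_sort _
  set e : Fin (Fintype.card (Wd A k)) ≃ Wd A k := s.trans e₀ with he
  have hmono' : ∀ i j, i ≤ j → (e i).1.length ≤ (e j).1.length := fun i j hij => hmono hij
  refine reg_equiv e (tower_reg0 (up_conn hU) (up_open hUo) (up_ne hne) (fun i => lft (L (e i).1))
    (fun i => han _) ?_)
  intro i j
  cases hw : (e i).1 with
  | nil =>
    refine ⟨0, 1, ⟨(up_ne hne).some, (up_ne hne).some_mem, ?_⟩, fun x hx => ?_⟩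
    · unfold evM
      simp
    · have h1 : lft (L (e i).1) =ᶠ[𝓝 x] fun _ => (1 : ℂ) := by
        filter_upwards [(up_open hUo).mem_nhds hx] with y hy
        rw [hw]
        exact (hL.groupLike _ hy).1
      have h2 : fderiv ℂ (lft (L [])) x = 0 := by
        rw [hw] at h1
        rw [h1.fderiv_eq]
        exact fderiv_const_apply _
      rw [h2]
      unfold evM
      simp
  | cons a w =>
    have hwl : w.length ≤ k := by
      have := (e i).2
      rw [hw] at this
      simp only [List.length_cons] at this
      omega
    set i' := e.symm ⟨w, hwl⟩ with hi'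
    have hei' : (e i').1 = w := by
      rw [hi', Equiv.apply_symm_apply]
    have hlt : i' < i := by
      by_contra hcon
      have h1 := hmono' i i' (not_lt.1 hcon)
      rw [hei', hw] at h1
      simp only [List.length_cons] at h1
      omega
    have hQ : ∀ x : Unit → ℂ, evM (fun k : {k : Fin (Fintype.card (Wd A k)) // k < i} => lft (L (e k.1).1)) x
        (C (X () - C (σ a))) = x () - σ a := by
      intro x
      unfold evM
      rw [eval₂_C]
      simp
    have heq : ∀ x ∈ up U, (x () - σ a) * fderiv ℂ (lft (L (a :: w))) x (Pi.single j 1) = L w (x ()) := by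
      intro x hx
      rw [show (Pi.single j (1 : ℂ) : Unit → ℂ) = Pi.single () 1 from rfl, lft_deriv hUo (hL.analytic _) hx]
      exact hL.equation a w _ hx
    refine ⟨X ⟨i', hlt⟩, C (X () - C (σ a)), ?_, fun x hx => ?_⟩
    · by_contra hcon
      push Not at hcon
      have hx := (up_ne hne).some_mem
      have h1 := hcon _ hx
      rw [hQ] at h1
      -- `σ a` would be in `U`
      have h2 : ∀ y ∈ up U, y () = σ a := by
        intro y hy
        have := hcon y hy
        rw [hQ] at this
        exact sub_eq_zero.1 this
      have h3 : L [] (((up_ne hne).some) ()) = 0 := by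
        rw [← hL.equation a [] _ hx, h1, zero_mul]
      have h4 : L [] (((up_ne hne).some) ()) = 1 := (hL.groupLike _ hx).1
      rw [h3] at h4
      exact zero_ne_one h4
    · rw [hQ, heq x hx]
      unfold evM
      rw [eval₂_X]
      simp only [hei']
      rfl

end Pool.Agent.Q311.KZ
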