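import Pool.Agent.Q311.KZ.D
import Pool.Agent.Q311.MV.Spec
import Pool.Agent.H340R2.LW

/-!
# All relations between the coefficients of a group-like solution at almost all algebraic points
-/

set_option autoImplicit false
set_option linter.unusedSectionVars false

open Filter NumberField Topology Pool.Agent.Q311.KO Pool.Agent.Q311.MV
open Pool.Agent.Y890.MV
open Pool.Agent.Y124 (Cov)

namespace Pool.Agent.Q311.KZ

variable {A : Type}

open Classical in
/-- the coefficients of the linear form, with a larger set of monomials -/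
theorem cf_eq {S : Type} [CommRing S] {k : ℕ} (P : MvPolynomial (Wd A k) S) (v : List A)
    (E : Finset (Wd A k →₀ ℕ)) (hE : P.support ⊆ E) :
    cf P v = ∑ m ∈ E, P.coeff m * (((N m : Multiset (List A)).count v : ℕ) : S) := by
  rw [cf]
  refine Finset.sum_subset hE fun m _ hm => ?_
  rw [MvPolynomial.notMem_support_iff.1 hm, zero_mul]

open Classical in
theorem cf_map {S R : Type} [CommRing S] [CommRing R] (f : S →+* R) {k : ℕ} (P : MvPolynomial (Wd A k) S)
    (v : List A) : cf (MvPolynomial.map f P) v = f (cf P v) := by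
  rw [cf_eq (MvPolynomial.map f P) v P.support (MvPolynomial.support_map_subset f P), cf, map_sum]
  refine Finset.sum_congr rfl fun m _ => ?_
  rw [MvPolynomial.coeff_map, map_mul, map_natCast]

/-- if the linear form is zero, then the polynomial vanishes at all group-like series -/
theorem vanish {S R : Type} [CommRing S] [CommRing R] (f : S →+* R) {k : ℕ} (P : MvPolynomial (Wd A k) S)
    (h : ∀ v, cf P v = 0) (Φ : List A → R) (hΦ : GroupLike Φ) :
    MvPolynomial.eval₂ f (fun w : Wd A k => Φ w.1) P = 0 := by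
  rw [lin f P Φ hΦ _ (Finset.Subset.refl _)]
  exact Finset.sum_eq_zero fun v _ => by rw [h v, map_zero, zero_mul]

variable [Fintype A] [DecidableEq A]

/-- functional relations are consequences of the shuffle relations -/
theorem cf_zero {σ : A → ℂ} (hσ : Function.Injective σ) {U : Set ℂ} (hU : IsPreconnected U) (hUo : IsOpen U)
    (hne : U.Nonempty) {L : List A → ℂ → ℂ} (hL : Transport σ U L) {k : ℕ}
    (F : MvPolynomial (Wd A k) (MvPolynomial Unit ℂ))
    (hF : ∀ x ∈ up U, evM (fun w : Wd A k => lft (L w.1)) x F = 0) (v : List A) : cf F v = 0 := by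
  classical
  refine lin_indep hσ hU hUo hne hL (insert v (V F.support)) (fun v => cf F v) ?_ v (Finset.mem_insert_self _ _)
  intro x hx
  rw [← hF x hx]
  exact (lin (MvPolynomial.eval x) F (fun w => L w (x ())) (hL.groupLike _ hx) _
    (Finset.subset_insert _ _)).symm

/-- the linear form of a relation between the values is zero -/
theorem cf_spec {σ : A → ℂ} (hσ : Function.Injective σ) {U : Set ℂ} (hU : IsPreconnected U) (hUo : IsOpen U)
    (hne : U.Nonempty) {L : List A → ℂ → ℂ} (hL : Transport σ U L) {k : ℕ} {K : Type} [Field K] [NumberField K]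
    {io : K →+* ℂ} {ξ : Fin k → ℂ} {T : ℝ} {s : Unit → ℂ}
    (h : SpecAt (up U) (fun w : Wd A k => lft (L w.1)) k K io ξ T s)
    (P : MvPolynomial (Wd A k) ℂ) (hdeg : ∀ y, P.degreeOf y ≤ k) (hc : CoefIn k K io ξ T P)
    (h0 : MvPolynomial.eval (fun w : Wd A k => L w.1 (s ())) P = 0) (v : List A) : cf P v = 0 := by
  obtain ⟨F, h1, h2, -, -⟩ := h P hdeg hc h0
  rw [← h2, cf_map, cf_zero hσ hU hUo hne hL F h1 v, map_zero]

/-- the relations at almost all points, all parameters at once -/
theorem spec_words {σ : A → ℂ} {U : Set ℂ} (hU : IsPreconnected U) (hUo : IsOpen U)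
    (hne : U.Nonempty) {L : List A → ℂ → ℂ} (hL : Transport σ U L) :
    ∃ (ω : ℝ → ℕ) (T₀ : ℝ), Tendsto ω atTop atTop ∧ Monotone ω ∧ ∀ T, T₀ ≤ T → 0 < ω T ∧
      ∀ (K : Type) [Field K] [NumberField K], Module.finrank ℚ K ≤ ω T → ∀ (io : K →+* ℂ) (ξ : Fin (ω T) → ℂ),
        {s : Unit → K | (∀ j, Y120.HtLe K T (s j)) ∧ (fun j => io (s j)) ∈ InnerM (up U) (ω T) ∧
            ¬ SpecAt (up U) (fun w : Wd A (ω T) => lft (L w.1)) (ω T) K io ξ T (fun j => io (s j))}.Finite ∧
        ({s : Unit → K | (∀ j, Y120.HtLe K T (s j)) ∧ (fun j => io (s j)) ∈ InnerM (up U) (ω T) ∧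
            ¬ SpecAt (up U) (fun w : Wd A (ω T) => lft (L w.1)) (ω T) K io ξ T (fun j => io (s j))}.ncard : ℝ) ≤
          T ^ ((ω T : ℝ)⁻¹) := by
  classical
  have key := omega_gen (X := Unit) (fun k => Fin k → ℂ)
    (fun k K _ _ io ξ T => {s : Unit → K | (∀ j, Y120.HtLe K T (s j)) ∧
      (fun j => io (s j)) ∈ InnerM (up U) k ∧
      ¬ SpecAt (up U) (fun w : Wd A k => lft (L w.1)) k K io ξ T (fun j => io (s j))})
    (fun k K _ _ io ξ T s hs => hs.1) (by
      intro k ε hε
      rcases Nat.eq_zero_or_pos k with hk | hk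
      · refine ⟨0, 0, 2, le_rfl, le_rfl, ?_⟩
        intro K _ _ hK
        have h1 : 0 < Module.finrank ℚ K := Module.finrank_pos
        omega
      have hfin : Fintype (Wd A k) := Fintype.ofFinite _
      obtain ⟨D, C, T₀, hC, hT₀, H⟩ := excM_cov stmZ stmClose stmCharts (up_conn hU) (up_open hUo) (up_ne hne)
        (fun w : Wd A k => lft_an hUo (hL.analytic w.1)) (regular hU hUo hne hL k) (InnerM (up U) k)
        (innerM_compact _ _) (innerM_sub _ hk) k ((Wd A k → Fin (k + 1)) × Fin k) Unit k (k : ℝ) ε hε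
      refine ⟨D, C, T₀, hC, hT₀, fun K _ _ hK io ξ T hT0 => ?_⟩
      refine (H K hK io (fun _ l p => if p.1 = l then ξ p.2 else 0) T hT0).mono le_rfl le_rfl (Set.image_mono ?_)
      rintro s ⟨hs1, hs2, hs3⟩
      by_contra hcon
      exact hs3 (spec_of_notMem _ _ K io ξ T hs1 hs2 hcon))
  obtain ⟨ω, T₀, h1, h2, h3⟩ := key
  refine ⟨ω, T₀, h1, h2, fun T hT => ⟨(h3 T hT).1, fun K _ _ hK io ξ => ?_⟩⟩
  obtain ⟨-, h4, h5⟩ := (h3 T hT).2 K hK io ξ
  refine ⟨h4, ?_⟩
  rw [Fintype.card_unit, Nat.sub_self, pow_zero, mul_one] at h5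
  exact h5

/-- the number `2 π i` -/
noncomputable def tpi : ℂ := 2 * Real.pi * Complex.I

/-- the powers of `2 π i` are independent over the algebraic numbers -/
theorem tpi_indep {k : ℕ} (K : Type) [Field K] [NumberField K] (io : K →+* ℂ) (c : Fin k → K)
    (h : ∑ a, io (c a) * tpi ^ (a : ℕ) = 0) : ∀ a, c a = 0 := by
  classical
  let p : Polynomial K := ∑ a : Fin k, Polynomial.monomial (a : ℕ) (c a)
  have hp : Polynomial.eval₂ io tpi p = 0 := by
    rw [Polynomial.eval₂_finsetSum]
    rw [← h]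
    refine Finset.sum_congr rfl fun a _ => ?_
    rw [Polynomial.eval₂_monomial]
  have htr : Transcendental ℚ tpi := by
    intro h1
    have h2 : IsAlgebraic ℚ (tpi ^ 2) := h1.pow 2
    have h3 : tpi ^ 2 = algebraMap ℚ ℂ (-4) * (Real.pi : ℂ) ^ 2 := by
      unfold tpi
      rw [mul_pow, mul_pow, Complex.I_sq]
      norm_num
    have h4 : (Real.pi : ℂ) ^ 2 = algebraMap ℚ ℂ (-4)⁻¹ * tpi ^ 2 := by
      rw [h3, ← mul_assoc, ← map_mul]
      norm_num
    have h5 : IsAlgebraic ℚ ((Real.pi : ℂ) ^ 2) := by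
      rw [h4]
      exact (isAlgebraic_algebraMap _).mul h2
    exact Pool.Agent.H340R2.LW.transcendental_pi_complex (h5.of_pow two_pos)
  have hp0 : p = 0 := by
    by_contra hne
    apply htr
    let _ : Algebra K ℂ := io.toAlgebra
    have h6 : IsAlgebraic K tpi := ⟨p, hne, hp⟩
    have : IsScalarTower ℚ K ℂ := IsScalarTower.of_algebraMap_eq fun q => by
      rw [eq_ratCast]
      exact (map_ratCast (algebraMap K ℂ) q).symm.trans (by rw [eq_ratCast])
    exact h6.restrictScalars ℚ
  intro a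
  have h7 : p.coeff (a : ℕ) = c a := by
    rw [Polynomial.finsetSum_coeff, Finset.sum_eq_single a]
    · rw [Polynomial.coeff_monomial, if_pos rfl]
    · intro b _ hb
      rw [Polynomial.coeff_monomial, if_neg (fun h8 => hb (Fin.ext h8))]
    · intro h8
      exact absurd (Finset.mem_univ a) h8
  rw [← h7, hp0, Polynomial.coeff_zero]

end Pool.Agent.Q311.KZ
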